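import Pool.Agent.AEC.StmtsS

/-!
# Squad AEC (MP_23d7af_lc), row S_STA: stabilization of small growing sets
-/

set_option autoImplicit false

open FirstOrder FirstOrder.Language Cardinal Set

universe u

namespace Pool.Agent.AEC.S.H9

open Pool.Agent.AEC

theorem s_sta : TrcStmt.{u} → DlmStmt.{u} → CclStmt.{u} → StaStmt.{u} := by
  intro hT hD hC L κ K l A Ψ hl hA hsm hmono
  by_contra hcon
  push Not at hcon
  have hκ : ℵ₀ ≤ κ := K.aleph0_le
  have hκl : κ ≤ l := (Order.le_succ κ).trans hl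
  have hl0 : ℵ₀ ≤ l := hκ.trans hκl
  have hsucc : ℵ₀ ≤ Order.succ κ := hκ.trans (Order.le_succ κ)
  have hcc := (hC L κ K l hl0).2
  haveI : NoMaxOrder (Order.succ κ).ord.ToType := Cardinal.noMaxOrder hsucc
  have hJ : #(Order.succ κ).ord.ToType = Order.succ κ := mk_ord_toType _
  haveI : Nonempty (Order.succ κ).ord.ToType := by
    rw [← Cardinal.mk_ne_zero_iff, hJ]
    intro h
    rw [h] at hsucc
    exact absurd hsucc (not_le.2 aleph0_pos)
  obtain ⟨F, m, b, hm1, hm2, hb, hQ, hR⟩ := hT L κ K A (fun B => #B.α = l)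
    (fun X Y e f => Ψ Y (f.comp e) ≠ f '' Ψ X e) (Order.succ κ).ord.ToType κ
    (fun j => by
      have h1 : #(Set.Iio j) < Order.succ κ := Cardinal.mk_Iio_toType_ord_lt j
      exact Order.lt_succ_iff.1 h1)
    (fun J _ _ _ _ hJ' F' m' B' s' h1 h2 h3 => hcc J (hJ'.trans hκl) F' m' B' s' h1 h2 h3)
    hA
    (fun X e hX => by
      obtain ⟨C, f, h1, h2⟩ := hcon X e hX
      exact ⟨C, f, h1, h2⟩)
  obtain ⟨G, s, hs, hsurj⟩ := hD L κ K (Order.succ κ).ord.ToType F m hm1 hm2
  have hG : #G.α = l := hcc _ (hJ.le.trans hl) F m G s hs hsurj hQ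
  have hcomp : ∀ i j (h : i ≤ j), (m i j h).comp (b i) = b j := fun i j h =>
    AEC.Hom.ext fun x => hb i j h x
  obtain ⟨j0⟩ := (inferInstance : Nonempty (Order.succ κ).ord.ToType)
  have hsb : ∀ i j, (s i).comp (b i) = (s j).comp (b j) := by
    have h1 : ∀ i j, i ≤ j → (s i).comp (b i) = (s j).comp (b j) := by
      intro i j hij
      refine AEC.Hom.ext fun x => ?_
      show s i (b i x) = s j (b j x)
      rw [← hs i j hij, hb i j hij]
    intro i j
    rcases le_total i j with h | h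
    · exact h1 i j h
    · exact (h1 j i h).symm
  have hstep : ∀ i, ∃ j, ∃ h : i ⋖ j, ∃ y, y ∈ Ψ (F j) (b j) ∧
      y ∉ m i j h.le '' Ψ (F i) (b i) := by
    intro i
    obtain ⟨j, hj⟩ := exists_covBy_of_wellFoundedLT (a := i) (not_isMax i)
    refine ⟨j, hj, ?_⟩
    have h1 := hR i j hj
    have h2 : m i j hj.le '' Ψ (F i) (b i) ⊆ Ψ (F j) ((m i j hj.le).comp (b i)) :=
      hmono (F i) (F j) (b i) (m i j hj.le) (hQ i) (hQ j)
    rw [hcomp] at h2
    rw [hcomp] at h1
    by_contra hne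
    push Not at hne
    exact h1 (Subset.antisymm hne h2)
  choose nx hnx y hy1 hy2 using hstep
  set z : (Order.succ κ).ord.ToType → G.α := fun i => s (nx i) (y i) with hz
  have hzm : ∀ i, z i ∈ Ψ G ((s j0).comp (b j0)) := by
    intro i
    have h1 := hmono (F (nx i)) G (b (nx i)) (s (nx i)) (hQ _) hG
    rw [hsb (nx i) j0] at h1
    exact h1 ⟨y i, hy1 i, rfl⟩
  have hne : ∀ i i', i < i' → z i ≠ z i' := by
    intro i i' hii h
    have hle : nx i ≤ i' := (hnx i).ge_of_gt hii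
    have h1 := hmono (F (nx i)) (F i') (b (nx i)) (m (nx i) i' hle) (hQ _) (hQ _)
    rw [hcomp] at h1
    have h2 : m (nx i) i' hle (y i) ∈ Ψ (F i') (b i') := h1 ⟨y i, hy1 i, rfl⟩
    have h3 : s i' (m (nx i) i' hle (y i)) = z i := hs _ _ _ _
    have h4 : s (nx i') (m i' (nx i') (hnx i').le (m (nx i) i' hle (y i))) = z i := by
      rw [hs, h3]
    rw [h] at h4
    have h5 := (s (nx i')).injective h4
    exact hy2 i' ⟨_, h2, h5⟩
  have hzi : Function.Injective z := by
    intro i i' h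
    rcases lt_trichotomy i i' with h1 | h1 | h1
    · exact absurd h (hne i i' h1)
    · exact h1
    · exact absurd h.symm (hne i' i h1)
  have hcard : Order.succ κ ≤ #(Ψ G ((s j0).comp (b j0))) := by
    rw [← hJ]
    exact Cardinal.mk_le_of_injective (f := fun i => (⟨z i, hzm i⟩ : Ψ G ((s j0).comp (b j0))))
      fun i i' h => hzi (congrArg Subtype.val h)
  exact absurd (hcard.trans (hsm G _ hG)) (not_le.2 (Order.lt_succ κ))

end Pool.Agent.AEC.S.H9
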